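import Mathlib

/-!
# JB*-algebras and multipliers: definitions
-/

set_option autoImplicit false

namespace Q89.JB

/-- A JB*-algebra structure on the complex normed space `A` (which is a Banach space when this is
used): a commutative bilinear product `mul a b = a ∘ b` which satisfies the Jordan identity and
`‖a ∘ b‖ ≤ ‖a‖ ‖b‖`, and a conjugate-linear multiplicative involution `inv a = a*`, such that
`‖U_a(a*)‖ = ‖a‖³`, where `U_a(b) = 2 (a ∘ b) ∘ a - (a ∘ a) ∘ b`. -/
structure JBStarStructure (A : Type*) [NormedAddCommGroup A] [NormedSpace ℂ A] where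
  /-- the Jordan product -/
  mul : A → A → A
  /-- the involution -/
  inv : A → A
  mul_comm : ∀ a b, mul a b = mul b a
  add_mul : ∀ a b c, mul (a + b) c = mul a c + mul b c
  smul_mul : ∀ (z : ℂ) (a b : A), mul (z • a) b = z • mul a b
  jordan : ∀ a b, mul (mul a b) (mul a a) = mul a (mul b (mul a a))
  norm_mul_le : ∀ a b, ‖mul a b‖ ≤ ‖a‖ * ‖b‖
  inv_inv : ∀ a, inv (inv a) = a
  inv_add : ∀ a b, inv (a + b) = inv a + inv b
  inv_smul : ∀ (z : ℂ) (a : A), inv (z • a) = (starRingEnd ℂ z) • inv a
  inv_mul : ∀ a b, inv (mul a b) = mul (inv a) (inv b)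
  norm_U : ∀ a, ‖(2 : ℂ) • mul (mul a (inv a)) a - mul (mul a a) (inv a)‖ = ‖a‖ ^ 3

/-- `i` embeds the JB*-algebra `(A, SA)` as a closed Jordan *-subalgebra in the JB*-algebra
`(B, SB)`: it is a linear isometry which preserves products and involutions.  An example is the
canonical embedding of `A` in its bidual `B = A**`, which is a JB*-algebra. -/
structure IsEmbedding {A B : Type*} [NormedAddCommGroup A] [NormedSpace ℂ A]
    [NormedAddCommGroup B] [NormedSpace ℂ B] (SA : JBStarStructure A) (SB : JBStarStructure B)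
    (i : A →ₗᵢ[ℂ] B) : Prop where
  map_mul : ∀ a b, i (SA.mul a b) = SB.mul (i a) (i b)
  map_inv : ∀ a, i (SA.inv a) = SB.inv (i a)

/-- The set of Jordan multipliers of `A` in `B`: all `x` in `B` with `x ∘ A ⊆ A`.  For the bidual
`B = A**` this is the multiplier algebra `M(A)`. -/
def multipliers {A B : Type*} [NormedAddCommGroup A] [NormedSpace ℂ A]
    [NormedAddCommGroup B] [NormedSpace ℂ B] (SB : JBStarStructure B) (i : A →ₗᵢ[ℂ] B) : Set B :=
  {x | ∀ a : A, SB.mul x (i a) ∈ Set.range i}

end Q89.JB
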