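import Pool.Agent.Q89.JB.Squares

/-!
# Multipliers of JB*-algebras form a subalgebra
-/

set_option autoImplicit false

namespace Q89.JB

open JBStarStructure

variable {A B : Type*} [NormedAddCommGroup A] [NormedSpace ℂ A] [CompleteSpace A]
  [NormedAddCommGroup B] [NormedSpace ℂ B] {SA : JBStarStructure A} {SB : JBStarStructure B}
  {i : A →ₗᵢ[ℂ] B}

omit [CompleteSpace A] in
theorem mem_multipliers_iff {x : B} :
    x ∈ multipliers SB i ↔ ∀ a : A, ∃ a' : A, i a' = SB.mul x (i a) := Iff.rfl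

/-- the property of `a` below is linear, and holds for squares, so it holds for all `a` -/
theorem induction_squares (P : A → Prop) (h0 : P 0) (hadd : ∀ a b, P a → P b → P (a + b))
    (hsmul : ∀ (z : ℂ) (a : A), P a → P (z • a)) (hsq : ∀ b, P (SA.mul b b)) (a : A) : P a := by
  have h := SA.mem_span_squares a
  induction h using Submodule.span_induction with
  | mem x hx =>
    obtain ⟨b, rfl⟩ := hx
    exact hsq b
  | zero => exact h0
  | add x y _ _ hx hy => exact hadd x y hx hy
  | smul z x _ hx => exact hsmul z x hx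

/-- The product of two multipliers is a multiplier. -/
theorem mul_mem_multipliers (hi : IsEmbedding SA SB i) {x y : B} (hx : x ∈ multipliers SB i)
    (hy : y ∈ multipliers SB i) : SB.mul x y ∈ multipliers SB i := by
  rw [mem_multipliers_iff] at *
  intro a
  refine induction_squares (SA := SA) (fun a => ∃ a' : A, i a' = SB.mul (SB.mul x y) (i a))
    ?_ ?_ ?_ ?_ a
  · exact ⟨0, by rw [map_zero, SB.mul_zero]⟩
  · rintro a b ⟨a', ha⟩ ⟨b', hb⟩
    exact ⟨a' + b', by rw [map_add, map_add, SB.mul_add, ha, hb]⟩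
  · rintro z a ⟨a', ha⟩
    exact ⟨z • a', by rw [map_smul, map_smul, SB.mul_smul, ha]⟩
  · intro b
    obtain ⟨y1, hy1⟩ := hy (SA.mul b b)
    obtain ⟨y2, hy2⟩ := hy b
    obtain ⟨x1, hx1⟩ := hx y1
    obtain ⟨x2, hx2⟩ := hx b
    obtain ⟨y3, hy3⟩ := hy x2
    refine ⟨x1 - (2 : ℂ) • SA.mul x2 y2 + (2 : ℂ) • SA.mul b y3, ?_⟩
    rw [SB.mul_comm (SB.mul x y), hi.map_mul, SB.sq_mul_mul]
    rw [map_add, map_sub, map_smul, map_smul, hi.map_mul, hi.map_mul, hx1, hy1, hx2, hy2, hy3,
      hx2, hi.map_mul, SB.mul_comm y, SB.mul_comm (i b) x, SB.mul_comm (i b) y,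
      SB.mul_comm y (SB.mul x (i b))]

end Q89.JB
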