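import Pool.Agent.Q89.JB.Defs

/-!
# JB*-algebras: linearised Jordan identity and power associativity
-/

set_option autoImplicit false

namespace Q89.JB

namespace JBStarStructure

variable {A : Type*} [NormedAddCommGroup A] [NormedSpace ℂ A] (S : JBStarStructure A)

theorem mul_add (a b c : A) : S.mul a (b + c) = S.mul a b + S.mul a c := by
  rw [S.mul_comm, S.add_mul, S.mul_comm b, S.mul_comm c]

theorem mul_smul (z : ℂ) (a b : A) : S.mul a (z • b) = z • S.mul a b := by
  rw [S.mul_comm, S.smul_mul, S.mul_comm b]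

theorem zero_mul (a : A) : S.mul 0 a = 0 := by
  have := S.smul_mul 0 0 a
  simpa using this

theorem mul_zero (a : A) : S.mul a 0 = 0 := by
  rw [S.mul_comm, S.zero_mul]

theorem neg_mul (a b : A) : S.mul (-a) b = - S.mul a b := by
  have := S.smul_mul (-1) a b
  simpa using this

theorem mul_neg (a b : A) : S.mul a (-b) = - S.mul a b := by
  rw [S.mul_comm, S.neg_mul, S.mul_comm b]

theorem sub_mul (a b c : A) : S.mul (a - b) c = S.mul a c - S.mul b c := by
  rw [sub_eq_add_neg, S.add_mul, S.neg_mul, sub_eq_add_neg]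

theorem mul_sub (a b c : A) : S.mul a (b - c) = S.mul a b - S.mul a c := by
  rw [sub_eq_add_neg, S.mul_add, S.mul_neg, sub_eq_add_neg]

theorem jordan' (a b : A) :
    S.mul (S.mul a a) (S.mul a b) - S.mul a (S.mul (S.mul a a) b) = 0 := by
  rw [S.mul_comm (S.mul a a) (S.mul a b), S.jordan a b, S.mul_comm b (S.mul a a), sub_self]

/-- The linearised Jordan identity. -/
theorem jordan_lin (a c d b : A) :
    S.mul (S.mul a c) (S.mul d b) - S.mul d (S.mul (S.mul a c) b) +
      (S.mul (S.mul c d) (S.mul a b) - S.mul a (S.mul (S.mul c d) b)) +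
      (S.mul (S.mul d a) (S.mul c b) - S.mul c (S.mul (S.mul d a) b)) = 0 := by
  have h1 := S.jordan' (a + c + d) b
  have h2 := S.jordan' (a + c) b
  have h3 := S.jordan' (a + d) b
  have h4 := S.jordan' (c + d) b
  have h5 := S.jordan' a b
  have h6 := S.jordan' c b
  have h7 := S.jordan' d b
  simp only [S.add_mul, S.mul_add, S.mul_comm c a, S.mul_comm d a, S.mul_comm d c] at h1 h2 h3 h4 ⊢
  have h8 := S.mul_comm (S.mul a c) b
  rw [← sub_eq_zero] at *
  linear_combination (norm := module) (1 / 2 : ℂ) • h1 - (1 / 2 : ℂ) • h2 - (1 / 2 : ℂ) • h3 -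
    (1 / 2 : ℂ) • h4 + (1 / 2 : ℂ) • h5 + (1 / 2 : ℂ) • h6 + (1 / 2 : ℂ) • h7

/-- The key identity `b² (c d) = c (b² d) - 2 (b c) (b d) + 2 b ((b c) d)`. -/
theorem sq_mul_mul (b c d : A) :
    S.mul (S.mul b b) (S.mul c d) = S.mul c (S.mul (S.mul b b) d)
      - (2 : ℂ) • S.mul (S.mul b c) (S.mul b d) + (2 : ℂ) • S.mul b (S.mul (S.mul b c) d) := by
  have h := S.jordan_lin b b c d
  rw [S.mul_comm c b] at h
  linear_combination (norm := module) h

/-- Multiplication as a linear map. -/
def L (a : A) : Module.End ℂ A where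
  toFun b := S.mul a b
  map_add' := S.mul_add a
  map_smul' z b := S.mul_smul z a b

@[simp] theorem L_apply (a b : A) : S.L a b = S.mul a b := rfl

/-- The powers: `pw h n = h^{n+1}`. -/
def pw (h : A) : ℕ → A
  | 0 => h
  | n + 1 => S.mul h (pw h n)

theorem pw_zero (h : A) : S.pw h 0 = h := rfl

theorem pw_succ (h : A) (n : ℕ) : S.pw h (n + 1) = S.mul h (S.pw h n) := rfl

theorem L_pw (h : A) (n : ℕ) :
    S.L (S.pw h (n + 2)) = S.L (S.pw h (n + 1)) * S.L h + S.L (S.pw h 1) * S.L (S.pw h n)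
      - S.L h * S.L h * S.L (S.pw h n) + S.L (S.pw h (n + 1)) * S.L h
      - S.L (S.pw h n) * S.L h * S.L h := by
  ext d
  have h1 := S.jordan_lin h (S.pw h n) d h
  simp only [Module.End.mul_apply, LinearMap.add_apply, LinearMap.sub_apply, L_apply]
  have e1 : S.pw h 1 = S.mul h h := rfl
  have e2 : S.pw h (n + 1) = S.mul h (S.pw h n) := rfl
  have e3 : S.pw h (n + 2) = S.mul h (S.mul h (S.pw h n)) := rfl
  rw [e1, e2, e3]
  have c1 : S.mul (S.mul h (S.pw h n)) h = S.mul h (S.mul h (S.pw h n)) := S.mul_comm _ _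
  have c2 : S.mul d (S.mul h (S.mul h (S.pw h n))) = S.mul (S.mul h (S.mul h (S.pw h n))) d :=
    S.mul_comm _ _
  have c3 : S.mul d h = S.mul h d := S.mul_comm _ _
  have c4 : S.mul (S.mul (S.pw h n) d) (S.mul h h) = S.mul (S.mul h h) (S.mul (S.pw h n) d) :=
    S.mul_comm _ _
  have c5 : S.mul (S.mul (S.pw h n) d) h = S.mul h (S.mul (S.pw h n) d) := S.mul_comm _ _
  have c6 : S.mul (S.pw h n) h = S.mul h (S.pw h n) := S.mul_comm _ _
  have c7 : S.mul (S.mul h d) (S.mul h (S.pw h n)) = S.mul (S.mul h (S.pw h n)) (S.mul h d) :=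
    S.mul_comm _ _
  have c8 : S.mul (S.mul h d) h = S.mul h (S.mul h d) := S.mul_comm _ _
  rw [c1, c2, c3, c4, c5, c6, c7, c8] at h1
  linear_combination (norm := module) - (1 : ℂ) • h1

theorem commute_L_sq (h : A) : Commute (S.L h) (S.L (S.pw h 1)) := by
  ext d
  simp only [Module.End.mul_apply, L_apply]
  have e1 : S.pw h 1 = S.mul h h := rfl
  rw [e1]
  exact (sub_eq_zero.1 (S.jordan' h d)).symm

theorem commute_pw (h : A) (n : ℕ) :
    (Commute (S.L (S.pw h n)) (S.L h) ∧ Commute (S.L (S.pw h n)) (S.L (S.pw h 1))) ∧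
    (Commute (S.L (S.pw h (n + 1))) (S.L h) ∧ Commute (S.L (S.pw h (n + 1))) (S.L (S.pw h 1))) := by
  induction n with
  | zero =>
    exact ⟨⟨Commute.refl _, S.commute_L_sq h⟩, ⟨(S.commute_L_sq h).symm, Commute.refl _⟩⟩
  | succ n ih =>
    refine ⟨ih.2, ?_⟩
    obtain ⟨⟨h1, h2⟩, ⟨h3, h4⟩⟩ := ih
    have h5 := S.commute_L_sq h
    rw [show n + 1 + 1 = n + 2 from rfl, S.L_pw h n]
    constructor
    · refine Commute.sub_left (Commute.add_left (Commute.sub_left (Commute.add_left ?_ ?_) ?_) ?_) ?_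
      · exact h3.mul_left (Commute.refl _)
      · exact h5.symm.mul_left h1
      · exact ((Commute.refl _).mul_left (Commute.refl _)).mul_left h1
      · exact h3.mul_left (Commute.refl _)
      · exact (h1.mul_left (Commute.refl _)).mul_left (Commute.refl _)
    · refine Commute.sub_left (Commute.add_left (Commute.sub_left (Commute.add_left ?_ ?_) ?_) ?_) ?_
      · exact h4.mul_left h5
      · exact (Commute.refl _).mul_left h2
      · exact (h5.mul_left h5).mul_left h2
      · exact h4.mul_left h5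
      · exact (h2.mul_left h5).mul_left h5

/-- Power associativity. -/
theorem pw_mul_pw (h : A) (m n : ℕ) : S.mul (S.pw h m) (S.pw h n) = S.pw h (m + n + 1) := by
  induction m with
  | zero => rw [S.pw_zero, Nat.zero_add, S.pw_succ]
  | succ m ih =>
    rw [S.pw_succ h m, S.mul_comm]
    have h1 := (S.commute_pw h n).1.1
    have h2 : S.mul (S.pw h n) (S.mul h (S.pw h m)) = S.mul h (S.mul (S.pw h n) (S.pw h m)) := by
      have := LinearMap.congr_fun h1.eq (S.pw h m)
      simpa only [Module.End.mul_apply, L_apply] using this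
    rw [h2, S.mul_comm (S.pw h n), ih, ← S.pw_succ]
    congr 1
    omega

end JBStarStructure

end Q89.JB
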