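import Pool.Agent.Q89.JB.Power

/-!
# JB*-algebras: every element is a linear combination of squares
-/

set_option autoImplicit false
set_option linter.unusedSectionVars false
set_option linter.unusedVariables false

namespace Q89.JB

namespace JBStarStructure

variable {A : Type*} [NormedAddCommGroup A] [NormedSpace ℂ A] (S : JBStarStructure A)

/-- Multiplication as a continuous bilinear map. -/
noncomputable def M : A →L[ℂ] A →L[ℂ] A :=
  LinearMap.mkContinuous₂
    (LinearMap.mk₂ ℂ S.mul S.add_mul S.smul_mul S.mul_add (fun z a b => S.mul_smul z a b)) 1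
    (fun a b => by
      rw [one_mul]
      exact S.norm_mul_le a b)

theorem M_apply (a b : A) : S.M a b = S.mul a b := rfl

theorem continuous_mul₂ : Continuous (fun p : A × A => S.mul p.1 p.2) := by
  have : (fun p : A × A => S.mul p.1 p.2) = fun p : A × A => S.M p.1 p.2 := rfl
  rw [this]
  exact S.M.continuous₂

theorem inv_zero : S.inv 0 = 0 := by
  have := S.inv_smul 0 0
  simpa using this

theorem inv_neg (a : A) : S.inv (-a) = - S.inv a := by
  have := S.inv_smul (-1) a
  simpa using this

theorem inv_sub (a b : A) : S.inv (a - b) = S.inv a - S.inv b := by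
  rw [sub_eq_add_neg, S.inv_add, S.inv_neg, sub_eq_add_neg]

theorem norm_le_inv (a : A) : ‖a‖ ≤ 3 * ‖S.inv a‖ := by
  by_cases ha : a = 0
  · rw [ha, norm_zero]
    positivity
  have hpos : 0 < ‖a‖ := norm_pos_iff.2 ha
  have h1 := S.norm_U a
  have h2 : ‖a‖ ^ 3 ≤ 3 * (‖a‖ ^ 2 * ‖S.inv a‖) := by
    rw [← h1]
    refine (norm_sub_le _ _).trans ?_
    rw [norm_smul]
    have e1 : ‖S.mul (S.mul a (S.inv a)) a‖ ≤ ‖a‖ * ‖S.inv a‖ * ‖a‖ :=
      (S.norm_mul_le _ _).trans (by gcongr; exact S.norm_mul_le _ _)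
    have e2 : ‖S.mul (S.mul a a) (S.inv a)‖ ≤ ‖a‖ * ‖a‖ * ‖S.inv a‖ :=
      (S.norm_mul_le _ _).trans (by gcongr; exact S.norm_mul_le _ _)
    have e3 : ‖(2 : ℂ)‖ = 2 := by simp
    rw [e3]
    nlinarith
  have h3 : ‖a‖ ^ 2 * ‖a‖ ≤ ‖a‖ ^ 2 * (3 * ‖S.inv a‖) := by nlinarith
  exact le_of_mul_le_mul_left h3 (by positivity)

theorem norm_inv_le (a : A) : ‖S.inv a‖ ≤ 3 * ‖a‖ := by
  have := S.norm_le_inv (S.inv a)
  rwa [S.inv_inv] at this

theorem continuous_inv : Continuous S.inv := by
  refine LipschitzWith.continuous (K := 3) (LipschitzWith.of_dist_le_mul fun x y => ?_)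
  rw [dist_eq_norm, dist_eq_norm, ← S.inv_sub]
  exact S.norm_inv_le _

/-- The span of the powers of `h`. -/
def W (h : A) : Submodule ℂ A := Submodule.span ℂ (Set.range (S.pw h))

theorem W_mul (h : A) {x y : A} (hx : x ∈ S.W h) (hy : y ∈ S.W h) : S.mul x y ∈ S.W h := by
  induction hx using Submodule.span_induction with
  | mem x hx =>
    obtain ⟨m, rfl⟩ := hx
    induction hy using Submodule.span_induction with
    | mem y hy =>
      obtain ⟨n, rfl⟩ := hy
      rw [S.pw_mul_pw]
      exact Submodule.subset_span ⟨_, rfl⟩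
    | zero => rw [S.mul_zero]; exact Submodule.zero_mem _
    | add y z _ _ hy hz => rw [S.mul_add]; exact Submodule.add_mem _ hy hz
    | smul c y _ hy => rw [S.mul_smul]; exact Submodule.smul_mem _ _ hy
  | zero => rw [S.zero_mul]; exact Submodule.zero_mem _
  | add y z _ _ hy hz => rw [S.add_mul]; exact Submodule.add_mem _ hy hz
  | smul c y _ hy => rw [S.smul_mul]; exact Submodule.smul_mem _ _ hy

theorem W_assoc (h : A) {x y z : A} (hx : x ∈ S.W h) (hy : y ∈ S.W h) (hz : z ∈ S.W h) :
    S.mul (S.mul x y) z = S.mul x (S.mul y z) := by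
  induction hx using Submodule.span_induction with
  | mem x hx =>
    obtain ⟨m, rfl⟩ := hx
    induction hy using Submodule.span_induction with
    | mem y hy =>
      obtain ⟨n, rfl⟩ := hy
      induction hz using Submodule.span_induction with
      | mem z hz =>
        obtain ⟨k, rfl⟩ := hz
        rw [S.pw_mul_pw, S.pw_mul_pw, S.pw_mul_pw, S.pw_mul_pw]
        congr 1
        omega
      | zero => rw [S.mul_zero, S.mul_zero, S.mul_zero]
      | add y z _ _ hy hz => rw [S.mul_add, S.mul_add, S.mul_add, hy, hz]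
      | smul c y _ hy => rw [S.mul_smul, S.mul_smul, S.mul_smul, hy]
    | zero => rw [S.mul_zero, S.zero_mul, S.mul_zero]
    | add y z _ _ hy hz => rw [S.mul_add, S.add_mul, S.add_mul, S.mul_add, hy, hz]
    | smul c y _ hy => rw [S.mul_smul, S.smul_mul, S.smul_mul, S.mul_smul, hy]
  | zero => rw [S.zero_mul, S.zero_mul, S.zero_mul]
  | add y z _ _ hy hz => rw [S.add_mul, S.add_mul, S.add_mul, hy, hz]
  | smul c y _ hy => rw [S.smul_mul, S.smul_mul, S.smul_mul, hy]

theorem W_inv (h : A) (hh : S.inv h = h) {x : A} (hx : x ∈ S.W h) : S.inv x ∈ S.W h := by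
  have hp : ∀ n, S.inv (S.pw h n) = S.pw h n := by
    intro n
    induction n with
    | zero => exact hh
    | succ n ih => rw [S.pw_succ, S.inv_mul, hh, ih]
  induction hx using Submodule.span_induction with
  | mem x hx =>
    obtain ⟨m, rfl⟩ := hx
    rw [hp]
    exact Submodule.subset_span ⟨_, rfl⟩
  | zero => rw [S.inv_zero]; exact Submodule.zero_mem _
  | add y z _ _ hy hz => rw [S.inv_add]; exact Submodule.add_mem _ hy hz
  | smul c y _ hy => rw [S.inv_smul]; exact Submodule.smul_mem _ _ hy

/-- The closed subalgebra generated by `h`. -/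
def V (h : A) : Submodule ℂ A := (S.W h).topologicalClosure

theorem V_mul (h : A) {x y : A} (hx : x ∈ S.V h) (hy : y ∈ S.V h) : S.mul x y ∈ S.V h := by
  have h1 : x ∈ closure (S.W h : Set A) := hx
  have h2 : y ∈ closure (S.W h : Set A) := hy
  have := map_mem_closure₂ (f := fun a b => S.mul a b) S.continuous_mul₂ h1 h2
    (fun a ha b hb => S.W_mul h ha hb)
  exact this

theorem V_inv (h : A) (hh : S.inv h = h) {x : A} (hx : x ∈ S.V h) : S.inv x ∈ S.V h := by
  have h1 : x ∈ closure (S.W h : Set A) := hx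
  exact map_mem_closure S.continuous_inv h1 (fun a ha => S.W_inv h hh ha)

theorem cont_l (a : A) : Continuous (fun x => S.mul a x) := (S.M a).continuous

theorem cont_r (a : A) : Continuous (fun x => S.mul x a) := by
  have : (fun x => S.mul x a) = fun x => S.mul a x := by
    funext x
    exact S.mul_comm _ _
  rw [this]
  exact S.cont_l a

theorem V_assoc (h : A) {x y z : A} (hx : x ∈ S.V h) (hy : y ∈ S.V h) (hz : z ∈ S.V h) :
    S.mul (S.mul x y) z = S.mul x (S.mul y z) := by
  have h1 : ∀ x ∈ S.W h, ∀ y ∈ S.W h, ∀ z ∈ S.V h,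
      S.mul (S.mul x y) z = S.mul x (S.mul y z) := by
    intro x hx y hy z hz
    have hz' : z ∈ closure (S.W h : Set A) := hz
    have hcl : IsClosed {z | S.mul (S.mul x y) z = S.mul x (S.mul y z)} :=
      isClosed_eq (S.cont_l _) ((S.cont_l x).comp (S.cont_l y))
    exact closure_minimal (fun w hw => S.W_assoc h hx hy hw) hcl hz'
  have h2 : ∀ x ∈ S.W h, ∀ y ∈ S.V h, ∀ z ∈ S.V h,
      S.mul (S.mul x y) z = S.mul x (S.mul y z) := by
    intro x hx y hy z hz
    have hy' : y ∈ closure (S.W h : Set A) := hy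
    have hcl : IsClosed {y | S.mul (S.mul x y) z = S.mul x (S.mul y z)} :=
      isClosed_eq ((S.cont_r z).comp (S.cont_l x)) ((S.cont_l x).comp (S.cont_r z))
    exact closure_minimal (fun w hw => h1 x hx w hw z hz) hcl hy'
  have hx' : x ∈ closure (S.W h : Set A) := hx
  have hcl : IsClosed {x | S.mul (S.mul x y) z = S.mul x (S.mul y z)} :=
    isClosed_eq ((S.cont_r z).comp (S.cont_r y)) (S.cont_r _)
  exact closure_minimal (fun w hw => h2 w hw y hy z hz) hcl hx'

/-- The closed subalgebra generated by `h`, as a type. -/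
def VT (h : A) (_ : S.inv h = h) : Type _ := S.V h

variable [CompleteSpace A] (h : A) (hh : S.inv h = h)

noncomputable instance instNACG : NormedAddCommGroup (S.VT h hh) :=
  inferInstanceAs (NormedAddCommGroup (S.V h))

noncomputable instance instNS : NormedSpace ℂ (S.VT h hh) :=
  inferInstanceAs (NormedSpace ℂ (S.V h))

instance instCS : CompleteSpace (S.VT h hh) :=
  (Submodule.isClosed_topologicalClosure (S.W h)).completeSpace_coe

/-- The inclusion of `VT` in `A`. -/
def incl (x : S.VT h hh) : A := (show S.V h from x : A)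

theorem incl_inj {x y : S.VT h hh} (hxy : S.incl h hh x = S.incl h hh y) : x = y :=
  Subtype.ext hxy

theorem incl_mem (x : S.VT h hh) : S.incl h hh x ∈ S.V h := (show S.V h from x).2

theorem incl_add (x y : S.VT h hh) :
    S.incl h hh (x + y) = S.incl h hh x + S.incl h hh y := rfl

theorem incl_sub (x y : S.VT h hh) :
    S.incl h hh (x - y) = S.incl h hh x - S.incl h hh y := rfl

theorem incl_zero : S.incl h hh 0 = 0 := rfl

theorem incl_smul (z : ℂ) (x : S.VT h hh) :
    S.incl h hh (z • x) = z • S.incl h hh x := rfl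

theorem norm_incl (x : S.VT h hh) : ‖x‖ = ‖S.incl h hh x‖ := rfl

instance instMul : Mul (S.VT h hh) :=
  ⟨fun x y => (⟨S.mul (S.incl h hh x) (S.incl h hh y),
    S.V_mul h (S.incl_mem h hh x) (S.incl_mem h hh y)⟩ : S.V h)⟩

theorem incl_mul (x y : S.VT h hh) :
    S.incl h hh (x * y) = S.mul (S.incl h hh x) (S.incl h hh y) := rfl

noncomputable instance instNURing : NonUnitalCommRing (S.VT h hh) :=
  { (inferInstance : AddCommGroup (S.VT h hh)), instMul S h hh with
    left_distrib := fun x y z => S.incl_inj h hh (by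
      rw [incl_mul, incl_add, incl_add, incl_mul, incl_mul, S.mul_add])
    right_distrib := fun x y z => S.incl_inj h hh (by
      rw [incl_mul, incl_add, incl_add, incl_mul, incl_mul, S.add_mul])
    zero_mul := fun x => S.incl_inj h hh (by rw [incl_mul, incl_zero, S.zero_mul])
    mul_zero := fun x => S.incl_inj h hh (by rw [incl_mul, incl_zero, S.mul_zero])
    mul_assoc := fun x y z => S.incl_inj h hh (by
      rw [incl_mul, incl_mul, incl_mul, incl_mul]
      exact S.V_assoc h (S.incl_mem h hh x) (S.incl_mem h hh y) (S.incl_mem h hh z))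
    mul_comm := fun x y => S.incl_inj h hh (by rw [incl_mul, incl_mul, S.mul_comm]) }

noncomputable instance instNNCR : NonUnitalNormedCommRing (S.VT h hh) :=
  { instNACG S h hh, instNURing S h hh with
    norm_mul_le := fun x y => S.norm_mul_le _ _ }

instance instStar : Star (S.VT h hh) :=
  ⟨fun x => (⟨S.inv (S.incl h hh x), S.V_inv h hh (S.incl_mem h hh x)⟩ : S.V h)⟩

theorem incl_star (x : S.VT h hh) : S.incl h hh (star x) = S.inv (S.incl h hh x) := rfl

noncomputable instance instSR : StarRing (S.VT h hh) where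
  star_involutive x := S.incl_inj h hh (by rw [incl_star, incl_star, S.inv_inv])
  star_mul x y := S.incl_inj h hh (by
    rw [incl_star, incl_mul, incl_mul, incl_star, incl_star, S.inv_mul, S.mul_comm])
  star_add x y := S.incl_inj h hh (by
    rw [incl_star, incl_add, incl_add, incl_star, incl_star, S.inv_add])

noncomputable instance instC : NonUnitalCommCStarAlgebra (S.VT h hh) :=
  { instNNCR S h hh, instSR S h hh, instNS S h hh, instCS S h hh with
    smul_assoc := fun z x y => S.incl_inj h hh (by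
      rw [smul_eq_mul, smul_eq_mul, incl_mul, incl_smul, incl_smul, incl_mul, S.smul_mul])
    smul_comm := fun z x y => S.incl_inj h hh (by
      rw [smul_eq_mul, smul_eq_mul, incl_mul, incl_smul, incl_smul, incl_mul, S.mul_smul])
    star_smul := fun z x => S.incl_inj h hh (by
      rw [incl_star, incl_smul, incl_smul, incl_star, S.inv_smul]
      rfl)
    norm_mul_self_le := fun x => by
      by_cases hx : x = 0
      · rw [hx]
        simp
      have hpos : 0 < ‖x‖ := norm_pos_iff.2 hx
      have h1 := S.norm_U (S.incl h hh x)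
      have h2 : (2 : ℂ) • S.mul (S.mul (S.incl h hh x) (S.inv (S.incl h hh x))) (S.incl h hh x) -
          S.mul (S.mul (S.incl h hh x) (S.incl h hh x)) (S.inv (S.incl h hh x)) =
          S.incl h hh (x * (star x * x)) := by
        rw [← incl_star, ← incl_mul, ← incl_mul, ← incl_mul, ← incl_mul, ← incl_smul, ← incl_sub]
        congr 1
        have e1 : x * star x * x = x * (star x * x) := _root_.mul_assoc _ _ _
        have e2 : x * x * star x = x * (star x * x) := by rw [_root_.mul_assoc, _root_.mul_comm x (star x)]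
        rw [e1, e2, two_smul, add_sub_cancel_right]
      rw [h2, ← norm_incl, ← norm_incl] at h1
      have h3 : ‖x‖ ^ 3 ≤ ‖x‖ * ‖star x * x‖ := by
        rw [← h1]
        exact _root_.norm_mul_le _ _
      have h4 : ‖x‖ * (‖x‖ * ‖x‖) ≤ ‖x‖ * ‖star x * x‖ := by
        calc ‖x‖ * (‖x‖ * ‖x‖) = ‖x‖ ^ 3 := by ring
          _ ≤ _ := h3
      exact le_of_mul_le_mul_left h4 hpos }

include hh in
/-- A self-adjoint element is a difference of two squares. -/
theorem exists_squares : ∃ b c : A, h = S.mul b b - S.mul c c := by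
  let x : S.VT h hh := (⟨h, Submodule.le_topologicalClosure _
    (Submodule.subset_span ⟨0, rfl⟩)⟩ : S.V h)
  have hx : S.incl h hh x = h := rfl
  have hxs : IsSelfAdjoint x := S.incl_inj h hh (by rw [incl_star, hx, hh])
  let _ : PartialOrder (S.VT h hh) := CStarAlgebra.spectralOrder _
  have _ : StarOrderedRing (S.VT h hh) := CStarAlgebra.spectralOrderedRing _
  have h1 : x⁺ - x⁻ = x := CFC.posPart_sub_negPart x hxs
  have h2 : CFC.sqrt (x⁺) * CFC.sqrt (x⁺) = x⁺ := CFC.sqrt_mul_sqrt_self _ (CFC.posPart_nonneg x)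
  have h3 : CFC.sqrt (x⁻) * CFC.sqrt (x⁻) = x⁻ := CFC.sqrt_mul_sqrt_self _ (CFC.negPart_nonneg x)
  refine ⟨S.incl h hh (CFC.sqrt (x⁺)), S.incl h hh (CFC.sqrt (x⁻)), ?_⟩
  rw [← incl_mul, ← incl_mul, h2, h3, ← incl_sub, h1, hx]

/-- **Squares span.** -/
theorem mem_span_squares (a : A) : a ∈ Submodule.span ℂ {x | ∃ b, x = S.mul b b} := by
  have key : ∀ k : A, S.inv k = k → k ∈ Submodule.span ℂ {x | ∃ b, x = S.mul b b} := by
    intro k hk
    obtain ⟨b, c, hbc⟩ := S.exists_squares k hk
    rw [hbc]
    exact Submodule.sub_mem _ (Submodule.subset_span ⟨b, rfl⟩) (Submodule.subset_span ⟨c, rfl⟩)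
  have h1 : a = (1 / 2 : ℂ) • (a + S.inv a) +
      (-(Complex.I / 2)) • (Complex.I • (a - S.inv a)) := by
    rw [smul_smul, smul_add, smul_sub]
    have : -(Complex.I / 2) * Complex.I = 1 / 2 := by
      linear_combination (-1 / 2 : ℂ) * Complex.I_mul_I
    rw [this]
    module
  rw [h1]
  refine Submodule.add_mem _ (Submodule.smul_mem _ _ (key _ ?_))
    (Submodule.smul_mem _ _ (key _ ?_))
  · rw [S.inv_add, S.inv_inv, add_comm]
  · rw [S.inv_smul, S.inv_sub, S.inv_inv, Complex.conj_I]
    module

end JBStarStructure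

end Q89.JB
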